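import Pool.Agent.Q61.ND.Stm

set_option autoImplicit false

/-!
Project ND of helper61, job DUA (helper214): duality.
-/

open MeasureTheory Set Filter Topology Real

namespace Pool.Agent.Q214.ND

open Pool.Agent.Q61.ND
open Pool.Agent.Q61.AD (P Q Per dt dx dy lap Tst D)

lemma dx_fd {ψ : P → ℝ} (h : Differentiable ℝ ψ) : dx ψ = fun x => fderiv ℝ ψ x (1, 0) := by
  funext x
  have h2 : HasFDerivAt ψ (fderiv ℝ ψ x) (x.1, x.2) := (h x).hasFDerivAt
  have h3 : HasDerivAt (fun s : ℝ => (s, x.2)) ((1, 0) : ℝ × ℝ) x.1 :=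
    (hasDerivAt_id _).prodMk (hasDerivAt_const _ _)
  exact (h2.comp_hasDerivAt (x.1) h3).deriv

lemma dy_fd {ψ : P → ℝ} (h : Differentiable ℝ ψ) : dy ψ = fun x => fderiv ℝ ψ x (0, 1) := by
  funext x
  have h2 : HasFDerivAt ψ (fderiv ℝ ψ x) (x.1, x.2) := (h x).hasFDerivAt
  have h3 : HasDerivAt (fun s : ℝ => (x.1, s)) ((0, 1) : ℝ × ℝ) x.2 :=
    (hasDerivAt_const _ _).prodMk (hasDerivAt_id _)
  exact (h2.comp_hasDerivAt (x.2) h3).deriv

lemma cd_diff {ψ : P → ℝ} (h : ContDiff ℝ (⊤ : ℕ∞) ψ) : Differentiable ℝ ψ := h.differentiable (by simp)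

lemma cd_dx {ψ : P → ℝ} (h : ContDiff ℝ (⊤ : ℕ∞) ψ) : ContDiff ℝ (⊤ : ℕ∞) (dx ψ) := by
  rw [dx_fd (cd_diff h)]
  exact (h.fderiv_right (m := (⊤ : ℕ∞)) (by simp)).clm_apply contDiff_const

lemma cd_dy {ψ : P → ℝ} (h : ContDiff ℝ (⊤ : ℕ∞) ψ) : ContDiff ℝ (⊤ : ℕ∞) (dy ψ) := by
  rw [dy_fd (cd_diff h)]
  exact (h.fderiv_right (m := (⊤ : ℕ∞)) (by simp)).clm_apply contDiff_const

lemma dx_add {φ ψ : P → ℝ} (h : ContDiff ℝ (⊤ : ℕ∞) φ) (h' : ContDiff ℝ (⊤ : ℕ∞) ψ) :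
    dx (φ + ψ) = dx φ + dx ψ := by
  rw [dx_fd (cd_diff h), dx_fd (cd_diff h'), dx_fd (ψ := φ + ψ) (cd_diff (h.add h'))]
  funext x
  rw [fderiv_add (cd_diff h x) (cd_diff h' x)]
  rfl

lemma dy_add {φ ψ : P → ℝ} (h : ContDiff ℝ (⊤ : ℕ∞) φ) (h' : ContDiff ℝ (⊤ : ℕ∞) ψ) :
    dy (φ + ψ) = dy φ + dy ψ := by
  rw [dy_fd (cd_diff h), dy_fd (cd_diff h'), dy_fd (ψ := φ + ψ) (cd_diff (h.add h'))]
  funext x
  rw [fderiv_add (cd_diff h x) (cd_diff h' x)]
  rfl

lemma dx_smul {φ : P → ℝ} (c : ℝ) (h : ContDiff ℝ (⊤ : ℕ∞) φ) : dx (c • φ) = c • dx φ := by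
  rw [dx_fd (cd_diff h), dx_fd (ψ := c • φ) (cd_diff (h.const_smul c))]
  funext x
  rw [fderiv_const_smul (cd_diff h x)]
  rfl

lemma dy_smul {φ : P → ℝ} (c : ℝ) (h : ContDiff ℝ (⊤ : ℕ∞) φ) : dy (c • φ) = c • dy φ := by
  rw [dy_fd (cd_diff h), dy_fd (ψ := c • φ) (cd_diff (h.const_smul c))]
  funext x
  rw [fderiv_const_smul (cd_diff h x)]
  rfl

lemma lap_add {φ ψ : P → ℝ} (h : ContDiff ℝ (⊤ : ℕ∞) φ) (h' : ContDiff ℝ (⊤ : ℕ∞) ψ) (x : P) :
    lap (φ + ψ) x = lap φ x + lap ψ x := by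
  unfold lap
  rw [dx_add h h', dy_add h h', dx_add (cd_dx h) (cd_dx h'), dy_add (cd_dy h) (cd_dy h')]
  simp only [Pi.add_apply]
  ring

lemma lap_smul {φ : P → ℝ} (c : ℝ) (h : ContDiff ℝ (⊤ : ℕ∞) φ) (x : P) :
    lap (c • φ) x = c * lap φ x := by
  unfold lap
  rw [dx_smul c h, dy_smul c h, dx_smul c (cd_dx h), dy_smul c (cd_dy h)]
  simp only [Pi.smul_apply, smul_eq_mul]
  ring

lemma cont_lap {φ : P → ℝ} (h : ContDiff ℝ (⊤ : ℕ∞) φ) : Continuous (lap φ) := by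
  unfold lap
  exact (cd_dx (cd_dx h)).continuous.add (cd_dy (cd_dy h)).continuous

lemma G0_add {φ ψ : P → ℝ} (h : ContDiff ℝ (⊤ : ℕ∞) φ) (h' : ContDiff ℝ (⊤ : ℕ∞) ψ) (p : P) :
    G0 (φ + ψ) p = G0 φ p + G0 ψ p := by
  unfold G0
  rw [lap_add h h', dx_add h h', dy_add h h']
  simp only [Pi.add_apply]
  ring

lemma G0_smul {φ : P → ℝ} (c : ℝ) (h : ContDiff ℝ (⊤ : ℕ∞) φ) (p : P) :
    G0 (c • φ) p = c * G0 φ p := by
  unfold G0
  rw [lap_smul c h, dx_smul c h, dy_smul c h]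
  simp only [Pi.smul_apply, smul_eq_mul]
  ring

lemma G0_meas {φ : P → ℝ} (h : ContDiff ℝ (⊤ : ℕ∞) φ) : Measurable (G0 φ) := by
  unfold G0
  refine Measurable.sub (Measurable.sub (cont_lap h).measurable ?_) ?_
  · refine Measurable.mul (Measurable.mul ?_ ?_) (cd_dx h).continuous.measurable
    · exact measurable_const.div measurable_fst
    · exact Real.measurable_cos.comp (measurable_const.mul measurable_snd)
  · refine Measurable.mul (Measurable.mul ?_ ?_) (cd_dy h).continuous.measurable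
    · exact measurable_const.div (measurable_fst.pow_const 2)
    · exact Real.measurable_sin.comp (measurable_const.mul measurable_snd)

/-- supports in a strip pass to derivatives -/
lemma supp_dx {φ : P → ℝ} {a b : ℝ} (h : Differentiable ℝ φ) (hs : ∀ p : P, φ p ≠ 0 → p.1 ∈ Icc a b) :
    ∀ p : P, dx φ p ≠ 0 → p.1 ∈ Icc a b := by
  intro p hp
  have h1 : tsupport φ ⊆ {p : P | p.1 ∈ Icc a b} := by
    apply closure_minimal (fun p hp => hs p hp)
    exact isClosed_Icc.preimage continuous_fst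
  apply h1
  apply support_fderiv_subset ℝ
  intro h0
  apply hp
  rw [dx_fd h]
  show fderiv ℝ φ p (1, 0) = 0
  rw [h0]
  rfl

lemma supp_dy {φ : P → ℝ} {a b : ℝ} (h : Differentiable ℝ φ) (hs : ∀ p : P, φ p ≠ 0 → p.1 ∈ Icc a b) :
    ∀ p : P, dy φ p ≠ 0 → p.1 ∈ Icc a b := by
  intro p hp
  have h1 : tsupport φ ⊆ {p : P | p.1 ∈ Icc a b} := by
    apply closure_minimal (fun p hp => hs p hp)
    exact isClosed_Icc.preimage continuous_fst
  apply h1
  apply support_fderiv_subset ℝ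
  intro h0
  apply hp
  rw [dy_fd h]
  show fderiv ℝ φ p (0, 1) = 0
  rw [h0]
  rfl

lemma supp_G0 {φ : P → ℝ} {a b : ℝ} (h : ContDiff ℝ (⊤ : ℕ∞) φ) (hs : ∀ p : P, φ p ≠ 0 → p.1 ∈ Icc a b)
    (p : P) (hp : p.1 ∉ Icc a b) : G0 φ p = 0 := by
  have h1 : dx φ p = 0 := by
    by_contra h0
    exact hp (supp_dx (cd_diff h) hs p h0)
  have h2 : dy φ p = 0 := by
    by_contra h0
    exact hp (supp_dy (cd_diff h) hs p h0)
  have h3 : dx (dx φ) p = 0 := by
    by_contra h0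
    exact hp (supp_dx (cd_diff (cd_dx h)) (supp_dx (cd_diff h) hs) p h0)
  have h4 : dy (dy φ) p = 0 := by
    by_contra h0
    exact hp (supp_dy (cd_diff (cd_dy h)) (supp_dy (cd_diff h) hs) p h0)
  unfold G0 lap
  rw [h1, h2, h3, h4]
  ring

lemma G0_contOn {φ : P → ℝ} (h : ContDiff ℝ (⊤ : ℕ∞) φ) : ContinuousOn (G0 φ) {p : P | 0 < p.1} := by
  unfold G0
  refine ContinuousOn.sub (ContinuousOn.sub (cont_lap h).continuousOn ?_) ?_
  · refine ContinuousOn.mul (ContinuousOn.mul ?_ ?_) (cd_dx h).continuous.continuousOn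
    · exact continuousOn_const.div continuous_fst.continuousOn fun p hp => (ne_of_gt hp)
    · exact (Real.continuous_cos.comp (continuous_const.mul continuous_snd)).continuousOn
  · refine ContinuousOn.mul (ContinuousOn.mul ?_ ?_) (cd_dy h).continuous.continuousOn
    · exact continuousOn_const.div (continuous_fst.pow 2).continuousOn fun p hp =>
        pow_ne_zero 2 (ne_of_gt hp)
    · exact (Real.continuous_sin.comp (continuous_const.mul continuous_snd)).continuousOn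

lemma meas_Sp (S : ℝ) : MeasurableSet (Sp S) := measurableSet_Ioi.prod measurableSet_Ioo

/-- a function continuous for `s > 0` which vanishes off `a ≤ s ≤ b` is integrable on the strip -/
lemma int_strip {f : P → ℝ} {a b : ℝ} (ha : 0 < a) (hf : ContinuousOn f {p : P | 0 < p.1})
    (hs : ∀ p : P, p.1 ∉ Icc a b → f p = 0) (S : ℝ) : IntegrableOn f (Sp S) := by
  have h3 : IntegrableOn f (Icc a b ×ˢ Icc (-π) π) := by
    refine ContinuousOn.integrableOn_compact (isCompact_Icc.prod isCompact_Icc) ?_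
    exact hf.mono fun p hp => lt_of_lt_of_le ha hp.1.1
  refine h3.of_forall_sdiff_eq_zero (meas_Sp S) fun p hp => hs p fun h0 => hp.2 ⟨h0, ?_⟩
  exact ⟨hp.1.2.1.le, hp.1.2.2.le⟩

lemma U0_contOn : ContinuousOn U0 {p : P | 0 < p.1} := by
  have hr : ∀ c : ℝ, ContinuousOn (fun p : P => p.1 ^ c) {p : P | 0 < p.1} := by
    intro c p hp
    exact (continuousAt_fst.rpow_const (Or.inl (ne_of_gt hp))).continuousWithinAt
  unfold U0
  refine ContinuousOn.mul (Real.continuous_exp.comp continuous_fst).continuousOn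
    (ContinuousOn.add (ContinuousOn.mul (hr _) ?_) (ContinuousOn.mul (continuousOn_const.mul (hr _)) ?_))
  · exact (Real.continuous_cos.comp continuous_snd).continuousOn
  · exact (Real.continuous_cos.comp (continuous_const.mul continuous_snd)).continuousOn

/-- Riesz on the range of a linear map -/
lemma riesz {V : Type*} [AddCommGroup V] [Module ℝ V] {H : Type*} [NormedAddCommGroup H]
    [InnerProductSpace ℝ H] [CompleteSpace H] (T : V →ₗ[ℝ] H) (l : V →ₗ[ℝ] ℝ) (c : ℝ)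
    (hc : ∀ v, |l v| ≤ c * ‖T v‖) : ∃ z : H, ∀ v, l v = inner ℝ z (T v) := by
  have hker : l ∈ (LinearMap.ker T).dualAnnihilator := by
    rw [Submodule.mem_dualAnnihilator]
    intro v hv
    have h1 := hc v
    rw [LinearMap.mem_ker.1 hv, norm_zero, mul_zero] at h1
    exact abs_eq_zero.1 (le_antisymm h1 (abs_nonneg _))
  rw [← LinearMap.range_dualMap_eq_dualAnnihilator_ker] at hker
  obtain ⟨f, hf⟩ := hker
  have hf' : ∀ v, f (T v) = l v := fun v => by
    rw [← hf]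
    rfl
  let g : StrongDual ℝ (LinearMap.range T) := (f.domRestrict (LinearMap.range T)).mkContinuous c (by
    rintro ⟨_, v, rfl⟩
    show ‖f (T v)‖ ≤ c * ‖T v‖
    rw [hf']
    exact hc v)
  obtain ⟨G, hG, -⟩ := exists_extension_norm_eq (LinearMap.range T) g
  refine ⟨(InnerProductSpace.toDual ℝ H).symm G, fun v => ?_⟩
  rw [InnerProductSpace.toDual_symm_apply]
  have h1 := hG ⟨T v, v, rfl⟩
  rw [← hf' v]
  exact h1.symm

/-- the space of test functions -/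
def VT : Submodule ℝ (P → ℝ) where
  carrier := {Φ | TC Φ}
  zero_mem' := by
    refine ⟨contDiff_const, fun s θ => ?_, 22, 22, by norm_num, fun s θ h => ?_⟩
    · simp
    · exact absurd rfl h
  add_mem' := by
    intro Φ Ψ h h'
    obtain ⟨a, b, ha, hab⟩ := h.supp
    obtain ⟨a', b', ha', hab'⟩ := h'.supp
    refine ⟨h.smooth.add h'.smooth, fun s θ => ?_, min a a', max b b', lt_min ha ha', fun s θ hne => ?_⟩
    · simp only [Pi.add_apply]
      rw [h.anti, h'.anti]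
      ring
    · by_cases h0 : Φ (s, θ) = 0
      · have h1 : Ψ (s, θ) ≠ 0 := by
          intro h1
          apply hne
          simp [h0, h1]
        have := hab' s θ h1
        exact ⟨(min_le_right _ _).trans this.1, this.2.trans (le_max_right _ _)⟩
      · have := hab s θ h0
        exact ⟨(min_le_left _ _).trans this.1, this.2.trans (le_max_left _ _)⟩
  smul_mem' := by
    intro c Φ h
    obtain ⟨a, b, ha, hab⟩ := h.supp
    refine ⟨h.smooth.const_smul c, fun s θ => ?_, a, b, ha, fun s θ hne => hab s θ ?_⟩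
    · simp only [Pi.smul_apply, smul_eq_mul]
      rw [h.anti]
      ring
    · intro h0
      apply hne
      simp [h0]

/-- the weight -/
noncomputable def rho (p : P) : ℝ := exp p.1 / √p.1

lemma rho_sq {p : P} (hp : 0 < p.1) : rho p ^ 2 = exp (2 * p.1) / p.1 := by
  unfold rho
  rw [div_pow, Real.sq_sqrt hp.le, ← Real.exp_nat_mul]
  norm_num

lemma rho_meas : Measurable rho :=
  (Real.measurable_exp.comp measurable_fst).div (measurable_fst.sqrt)

lemma rho_contOn : ContinuousOn rho {p : P | 0 < p.1} := by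
  unfold rho
  refine ContinuousOn.div (Real.continuous_exp.comp continuous_fst).continuousOn
    (Real.continuous_sqrt.comp continuous_fst).continuousOn fun p hp => ?_
  exact (Real.sqrt_pos.2 hp).ne'

lemma TC_supp {Φ : P → ℝ} (h : TC Φ) : ∃ a b : ℝ, 21 < a ∧ ∀ p : P, p.1 ∉ Icc a b → G0 Φ p = 0 := by
  obtain ⟨a, b, ha, hab⟩ := h.supp
  exact ⟨a, b, ha, fun p hp => supp_G0 h.smooth (fun q hq => hab q.1 q.2 hq) p hp⟩

lemma int_U0 {Φ : P → ℝ} (h : TC Φ) : IntegrableOn (fun p => U0 p * G0 Φ p) (Sp 21) := by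
  obtain ⟨a, b, ha, hab⟩ := TC_supp h
  refine int_strip (a := a) (b := b) (by linarith) (U0_contOn.mul (G0_contOn h.smooth)) ?_ 21
  intro p hp
  show U0 p * G0 Φ p = 0
  rw [hab p hp, mul_zero]

lemma mem_T {Φ : P → ℝ} (h : TC Φ) : MemLp (fun p => rho p * G0 Φ p) 2 (volume.restrict (Sp 21)) := by
  obtain ⟨a, b, ha, hab⟩ := TC_supp h
  have hm : AEStronglyMeasurable (fun p => rho p * G0 Φ p) (volume.restrict (Sp 21)) :=
    (rho_meas.mul (G0_meas h.smooth)).aestronglyMeasurable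
  rw [memLp_two_iff_integrable_sq hm]
  refine int_strip (a := a) (b := b) (by linarith) ((rho_contOn.mul (G0_contOn h.smooth)).pow 2) ?_ 21
  intro p hp
  show (rho p * G0 Φ p) ^ 2 = 0
  rw [hab p hp, mul_zero]
  norm_num

/-- the map into `L²` -/
noncomputable def TT : VT →ₗ[ℝ] Lp ℝ 2 (volume.restrict (Sp 21)) where
  toFun Φ := (mem_T Φ.2).toLp _
  map_add' Φ Ψ := by
    rw [← MemLp.toLp_add (mem_T Φ.2) (mem_T Ψ.2)]
    refine MemLp.toLp_congr _ _ (Filter.Eventually.of_forall fun p => ?_)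
    show rho p * G0 ((Φ : P → ℝ) + (Ψ : P → ℝ)) p = rho p * G0 Φ p + rho p * G0 Ψ p
    rw [G0_add Φ.2.smooth Ψ.2.smooth]
    ring
  map_smul' c Φ := by
    rw [RingHom.id_apply, ← MemLp.toLp_const_smul c (mem_T Φ.2)]
    refine MemLp.toLp_congr _ _ (Filter.Eventually.of_forall fun p => ?_)
    show rho p * G0 (c • (Φ : P → ℝ)) p = c * (rho p * G0 Φ p)
    rw [G0_smul c Φ.2.smooth]
    ring

/-- the functional -/
noncomputable def ll : VT →ₗ[ℝ] ℝ where
  toFun Φ := ∫ p in Sp 21, U0 p * G0 Φ p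
  map_add' Φ Ψ := by
    rw [← integral_add (int_U0 Φ.2) (int_U0 Ψ.2)]
    congr 1
    funext p
    show U0 p * G0 ((Φ : P → ℝ) + (Ψ : P → ℝ)) p = U0 p * G0 Φ p + U0 p * G0 Ψ p
    rw [G0_add Φ.2.smooth Ψ.2.smooth]
    ring
  map_smul' c Φ := by
    rw [RingHom.id_apply, smul_eq_mul, ← integral_const_mul]
    congr 1
    funext p
    show U0 p * G0 (c • (Φ : P → ℝ)) p = c * (U0 p * G0 Φ p)
    rw [G0_smul c Φ.2.smooth]
    ring

lemma norm_TT (Φ : VT) : ‖TT Φ‖ ^ 2 = ∫ p in Sp 21, exp (2 * p.1) / p.1 * G0 Φ p ^ 2 := by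
  rw [← real_inner_self_eq_norm_sq, L2.inner_def]
  have h1 : (TT Φ : P → ℝ) =ᵐ[volume.restrict (Sp 21)] fun p => rho p * G0 Φ p := (mem_T Φ.2).coeFn_toLp
  refine integral_congr_ae ?_
  filter_upwards [h1, ae_restrict_mem (meas_Sp 21)] with p hp hp2
  have hp0 : (0 : ℝ) < p.1 := lt_trans (by norm_num) (show (21 : ℝ) < p.1 from hp2.1)
  rw [hp, real_inner_self_eq_norm_sq, Real.norm_eq_abs, sq_abs, mul_pow, rho_sq hp0]

/-- JOB DUA -/
theorem dua (h : S_lbd) : S_dua := by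
  obtain ⟨C, hC⟩ := h
  have hb : ∀ Φ : VT, |ll Φ| ≤ √(max C 0) * ‖TT Φ‖ := by
    intro Φ
    have h1 := hC Φ Φ.2
    rw [← norm_TT Φ] at h1
    have h2 : (ll Φ) ^ 2 ≤ max C 0 * ‖TT Φ‖ ^ 2 :=
      h1.trans (mul_le_mul_of_nonneg_right (le_max_left _ _) (sq_nonneg _))
    have h3 := Real.abs_le_sqrt h2
    rwa [Real.sqrt_mul (le_max_right _ _), Real.sqrt_sq (norm_nonneg _)] at h3
  obtain ⟨z, hz⟩ := riesz TT ll _ hb
  have hzm : Measurable (z : P → ℝ) := (Lp.stronglyMeasurable z).measurable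
  refine ⟨fun p => (z : P → ℝ) p * rho p, hzm.mul rho_meas, ?_, fun Φ hΦ => ?_⟩
  · have h1 : Integrable (fun p => (z : P → ℝ) p ^ 2) (volume.restrict (Sp 21)) := (Lp.memLp z).integrable_sq
    refine Integrable.congr h1 ?_
    filter_upwards [ae_restrict_mem (meas_Sp 21)] with p hp2
    have hp0 : (0 : ℝ) < p.1 := lt_trans (by norm_num) (show (21 : ℝ) < p.1 from hp2.1)
    rw [mul_pow, rho_sq hp0]
    have h2 : exp (-2 * p.1) * exp (2 * p.1) = 1 := by
      rw [← Real.exp_add]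
      simp
    calc (z : P → ℝ) p ^ 2 = (z : P → ℝ) p ^ 2 * (exp (-2 * p.1) * exp (2 * p.1)) := by rw [h2, mul_one]
      _ = exp (-2 * p.1) * p.1 * ((z : P → ℝ) p ^ 2 * (exp (2 * p.1) / p.1)) := by
        field_simp
  · have h1 := hz ⟨Φ, hΦ⟩
    have h2 : (TT ⟨Φ, hΦ⟩ : P → ℝ) =ᵐ[volume.restrict (Sp 21)] fun p => rho p * G0 Φ p := (mem_T hΦ).coeFn_toLp
    show _ = ll ⟨Φ, hΦ⟩
    rw [h1, L2.inner_def]
    refine integral_congr_ae ?_
    filter_upwards [h2] with p hp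
    rw [hp]
    show (z : P → ℝ) p * rho p * G0 Φ p = (rho p * G0 Φ p) * (z : P → ℝ) p
    ring

end Pool.Agent.Q214.ND
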