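import Pool.Agent.Q214.ND.Dua

set_option autoImplicit false

/-!
Project ND of helper61, job LOC (helper214): the correction on the disc.
-/

open MeasureTheory Set Filter Topology Real

namespace Pool.Agent.Q214.ND

open Pool.Agent.Q61.ND
open Pool.Agent.Q61.AD (P Q Per dt dx dy lap Tst D)

lemma exp_two (s : ℝ) : exp (-2 * s) = exp (-s) ^ 2 := by
  rw [← Real.exp_nat_mul]
  congr 1
  push_cast
  ring

lemma rs_EE (p : P) : rs (EE p) = exp (-2 * p.1) := by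
  unfold rs EE
  rw [exp_two]
  have h := Real.cos_sq_add_sin_sq p.2
  show (exp (-p.1) * cos p.2) ^ 2 + (exp (-p.1) * sin p.2) ^ 2 = exp (-p.1) ^ 2
  rw [show (exp (-p.1) * cos p.2) ^ 2 + (exp (-p.1) * sin p.2) ^ 2 =
    exp (-p.1) ^ 2 * (cos p.2 ^ 2 + sin p.2 ^ 2) by ring, h, mul_one]

lemma ls_EE (p : P) : ls (EE p) = p.1 := by
  unfold ls
  rw [rs_EE, Real.log_exp]
  ring

lemma sqrt_rs_EE (p : P) : √(rs (EE p)) = exp (-p.1) := by
  rw [rs_EE, exp_two, Real.sqrt_sq (exp_pos _).le]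

lemma U0c_EE (p : P) : U0c (EE p) = U0 p := by
  unfold U0c U0
  rw [ls_EE, sqrt_rs_EE]
  have h1 : (EE p).1 / exp (-p.1) = cos p.2 := by
    show exp (-p.1) * cos p.2 / exp (-p.1) = cos p.2
    field_simp
  rw [h1, Real.cos_three_mul, one_div, ← Real.exp_neg, neg_neg]

/-- the argument -/
noncomputable def ar (x : P) : ℝ := Complex.arg ⟨x.1, x.2⟩

lemma mkc (r c s : ℝ) : (⟨r * c, r * s⟩ : ℂ) = (r : ℂ) * ((c : ℂ) + (s : ℂ) * Complex.I) := by
  apply Complex.ext <;> simp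

lemma ar_EE {p : P} (hp : p.2 ∈ Ioo (-π) π) : ar (EE p) = p.2 := by
  unfold ar EE
  have h1 := Complex.arg_mul_cos_add_sin_mul_I (exp_pos (-p.1)) (⟨hp.1, hp.2.le⟩ : p.2 ∈ Ioc (-π) π)
  have h2 : (⟨exp (-p.1) * cos p.2, exp (-p.1) * sin p.2⟩ : ℂ) =
      (exp (-p.1) : ℝ) * (Complex.cos p.2 + Complex.sin p.2 * Complex.I) := by
    rw [← Complex.ofReal_cos, ← Complex.ofReal_sin]
    exact mkc _ _ _
  show Complex.arg ⟨exp (-p.1) * cos p.2, exp (-p.1) * sin p.2⟩ = p.2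
  rw [h2]
  exact h1

lemma GG_eta0 (Φ : P → ℝ) {p : P} (hp : 0 < p.1) : GG eta0 Φ p = G0 Φ p := by
  have h1 : HasDerivAt eta0 (-(3 / 2) * (-(p.1 ^ 2)⁻¹)) p.1 := by
    have h2 := (hasDerivAt_inv hp.ne').const_mul (-(3 / 2) : ℝ)
    have h3 : eta0 = fun s => -(3 / 2) * s⁻¹ := by
      funext s
      unfold eta0
      ring
    rw [h3]
    exact h2
  unfold GG G0
  rw [h1.deriv]
  unfold eta0
  ring

lemma tr_int (h1 : S_chn) (h2 : S_pol) (f : P → ℝ) {φ : P → ℝ} (hφ : ContDiff ℝ (⊤ : ℕ∞) φ) :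
    (∫ x in Dc 21, f x * LL (bb eta0) φ x = ∫ p in Sp 21, f (EE p) * G0 (φ ∘ EE) p) ∧
    (IntegrableOn (fun x => f x * LL (bb eta0) φ x) (Dc 21) ↔
      IntegrableOn (fun p => f (EE p) * G0 (φ ∘ EE) p) (Sp 21)) := by
  have h3 := h2 21 (fun x => f x * LL (bb eta0) φ x)
  have hφ2 : ContDiff ℝ 2 φ := by exact_mod_cast contDiff_infty.1 hφ 2
  have h4 : ∀ p ∈ Sp 21, exp (-2 * p.1) * (f (EE p) * LL (bb eta0) φ (EE p)) =
      f (EE p) * G0 (φ ∘ EE) p := by
    intro p hp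
    have hp0 : (0 : ℝ) < p.1 := lt_trans (by norm_num) (show (21 : ℝ) < p.1 from hp.1)
    rw [← GG_eta0 _ hp0, (h1 eta0 φ hφ2 p).2.2.2]
    ring
  constructor
  · rw [h3.1]
    exact setIntegral_congr_fun (meas_Sp 21) h4
  · rw [h3.2]
    exact integrableOn_congr_fun h4 (meas_Sp 21)

lemma EE_smooth : ContDiff ℝ (⊤ : ℕ∞) EE := by
  unfold EE
  apply ContDiff.prodMk
  · exact (Real.contDiff_exp.comp contDiff_fst.neg).mul (Real.contDiff_cos.comp contDiff_snd)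
  · exact (Real.contDiff_exp.comp contDiff_fst.neg).mul (Real.contDiff_sin.comp contDiff_snd)

/-- the support condition -/
def Sup (φ : P → ℝ) : Prop := ∃ a b : ℝ, 0 < a ∧ b < exp (-42) ∧ ∀ x, φ x ≠ 0 → rs x ∈ Icc a b

lemma sup_EE {φ : P → ℝ} (h : Sup φ) :
    ∃ a b : ℝ, 21 < a ∧ ∀ p : P, (φ ∘ EE) p ≠ 0 → p.1 ∈ Icc a b := by
  obtain ⟨a, b, ha, hb, hab⟩ := h
  set b' : ℝ := max b (exp (-43)) with hb'
  have hb0 : 0 < b' := lt_of_lt_of_le (exp_pos _) (le_max_right _ _)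
  have hb1 : b' < exp (-42) := max_lt hb (Real.exp_lt_exp.2 (by norm_num))
  refine ⟨-(1 / 2) * log b', -(1 / 2) * log a, ?_, fun p hp => ?_⟩
  · have h1 : log b' < -42 := by
      rw [Real.log_lt_iff_lt_exp hb0]
      exact hb1
    linarith
  · have h1 := hab (EE p) hp
    rw [rs_EE] at h1
    have h2 : log a ≤ -2 * p.1 := by
      rw [Real.log_le_iff_le_exp ha]
      exact h1.1
    have h3 : -2 * p.1 ≤ log b' := by
      rw [Real.le_log_iff_exp_le hb0]
      exact h1.2.trans (le_max_left _ _)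
    constructor <;> linarith

lemma int_strip_U0 {Φ : P → ℝ} (h : ContDiff ℝ (⊤ : ℕ∞) Φ) {a b : ℝ} (ha : 21 < a)
    (hs : ∀ p : P, Φ p ≠ 0 → p.1 ∈ Icc a b) : IntegrableOn (fun p => U0 p * G0 Φ p) (Sp 21) := by
  refine int_strip (a := a) (b := b) (by linarith) (U0_contOn.mul (G0_contOn h)) ?_ 21
  intro p hp
  show U0 p * G0 Φ p = 0
  rw [supp_G0 h hs p hp, mul_zero]

lemma int_strip_Z {Z : P → ℝ} (hZm : Measurable Z)
    (hZ : IntegrableOn (fun p => exp (-2 * p.1) * p.1 * Z p ^ 2) (Sp 21)) {Φ : P → ℝ}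
    (h : ContDiff ℝ (⊤ : ℕ∞) Φ) {a b : ℝ} (ha : 21 < a)
    (hs : ∀ p : P, Φ p ≠ 0 → p.1 ∈ Icc a b) : IntegrableOn (fun p => Z p * G0 Φ p) (Sp 21) := by
  have h1 : IntegrableOn (fun p => (rho p * G0 Φ p) ^ 2) (Sp 21) := by
    refine int_strip (a := a) (b := b) (by linarith) ((rho_contOn.mul (G0_contOn h)).pow 2) ?_ 21
    intro p hp
    show (rho p * G0 Φ p) ^ 2 = 0
    rw [supp_G0 h hs p hp, mul_zero]
    norm_num
  have h2 : Integrable (fun p => exp (-2 * p.1) * p.1 * Z p ^ 2 + (rho p * G0 Φ p) ^ 2)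
      (volume.restrict (Sp 21)) := hZ.add h1
  refine h2.mono' (hZm.mul (G0_meas h)).aestronglyMeasurable ?_
  filter_upwards [ae_restrict_mem (meas_Sp 21)] with p hp
  have hp0 : (0 : ℝ) < p.1 := lt_trans (by norm_num) (show (21 : ℝ) < p.1 from hp.1)
  rw [mul_pow, rho_sq hp0, Real.norm_eq_abs, abs_mul]
  have hA : 0 < exp (-2 * p.1) * p.1 := by positivity
  have hB : exp (2 * p.1) / p.1 * (exp (-2 * p.1) * p.1) = 1 := by
    have : exp (2 * p.1) * exp (-2 * p.1) = 1 := by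
      rw [← Real.exp_add]
      simp
    calc exp (2 * p.1) / p.1 * (exp (-2 * p.1) * p.1) = (exp (2 * p.1) * exp (-2 * p.1)) * (p.1 / p.1) := by ring
      _ = 1 := by rw [this, div_self hp0.ne', mul_one]
  set A : ℝ := exp (-2 * p.1) * p.1 with hAd
  set B : ℝ := exp (2 * p.1) / p.1 with hBd
  have hB0 : 0 < B := by
    rw [hBd]
    positivity
  have h3 : 0 ≤ B * (A * |Z p| - |G0 Φ p|) ^ 2 := by positivity
  have h4 : B * (A * |Z p| - |G0 Φ p|) ^ 2 =
      (B * A) * A * |Z p| ^ 2 - 2 * (B * A) * (|Z p| * |G0 Φ p|) + B * |G0 Φ p| ^ 2 := by ring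
  rw [h4, hB, sq_abs, sq_abs] at h3
  have h5 : 0 ≤ |Z p| * |G0 Φ p| := by positivity
  linarith

/-! ### The reflection -/

lemma rs_neg (x : P) : rs (-x) = rs x := by
  unfold rs
  simp

lemma ls_neg (x : P) : ls (-x) = ls x := by
  unfold ls
  rw [rs_neg]

lemma Dc_neg (S : ℝ) : (fun x : P => -x) ⁻¹' Dc S = Dc S := by
  ext x
  simp only [Dc, mem_preimage, mem_ofPred_eq, rs_neg]

lemma mp_neg : MeasurePreserving (fun x : P => -x) volume volume := Measure.measurePreserving_neg volume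

lemma me_neg : MeasurableEmbedding (fun x : P => -x) := (Homeomorph.neg P).measurableEmbedding

lemma int_neg (S : ℝ) (f : P → ℝ) : ∫ x in Dc S, f (-x) = ∫ x in Dc S, f x := by
  have h := mp_neg.setIntegral_preimage_emb me_neg f (Dc S)
  rw [Dc_neg] at h
  exact h

lemma intOn_neg {S : ℝ} {f : P → ℝ} (hf : IntegrableOn f (Dc S)) : IntegrableOn (fun x => f (-x)) (Dc S) := by
  have h := (mp_neg.integrableOn_comp_preimage me_neg (f := f) (s := Dc S)).2 hf
  rw [Dc_neg] at h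
  exact h

lemma dx_neg (φ : P → ℝ) (x : P) : dx (fun y => φ (-y)) x = -dx φ (-x) := by
  unfold Pool.Agent.Q61.AD.dx
  have h := deriv_comp_neg (fun s => φ (s, -x.2)) x.1
  exact h

lemma dy_neg (φ : P → ℝ) (x : P) : dy (fun y => φ (-y)) x = -dy φ (-x) := by
  unfold Pool.Agent.Q61.AD.dy
  have h := deriv_comp_neg (fun s => φ (-x.1, s)) x.2
  exact h

lemma dx_neg' (φ : P → ℝ) (x : P) : dx (fun y => -φ y) x = -dx φ x := by
  unfold Pool.Agent.Q61.AD.dx
  exact deriv.fun_neg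

lemma dy_neg' (φ : P → ℝ) (x : P) : dy (fun y => -φ y) x = -dy φ x := by
  unfold Pool.Agent.Q61.AD.dy
  exact deriv.fun_neg

lemma lap_neg (φ : P → ℝ) (x : P) : lap (fun y => φ (-y)) x = lap φ (-x) := by
  unfold lap
  have h1 : dx (fun y => φ (-y)) = fun y => -(fun z => dx φ (-z)) y := by
    funext y
    exact dx_neg φ y
  have h2 : dy (fun y => φ (-y)) = fun y => -(fun z => dy φ (-z)) y := by
    funext y
    exact dy_neg φ y
  rw [h1, h2, dx_neg', dy_neg', dx_neg, dy_neg, neg_neg, neg_neg]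

lemma bb_neg (η : ℝ → ℝ) (x : P) : bb η (-x) = -bb η x := by
  unfold bb
  rw [ls_neg, rs_neg]
  apply Prod.ext
  · show (-2 * η (ls x) * ((-x.1) ^ 2 - (-x.2) ^ 2) * (-x.1) + deriv η (ls x) * (2 * (-x.1) * (-x.2)) * (-x.2)) / rs x ^ 2 =
      -((-2 * η (ls x) * (x.1 ^ 2 - x.2 ^ 2) * x.1 + deriv η (ls x) * (2 * x.1 * x.2) * x.2) / rs x ^ 2)
    ring
  · show (-2 * η (ls x) * ((-x.1) ^ 2 - (-x.2) ^ 2) * (-x.2) - deriv η (ls x) * (2 * (-x.1) * (-x.2)) * (-x.1)) / rs x ^ 2 =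
      -((-2 * η (ls x) * (x.1 ^ 2 - x.2 ^ 2) * x.2 - deriv η (ls x) * (2 * x.1 * x.2) * x.1) / rs x ^ 2)
    ring

lemma LL_neg (η : ℝ → ℝ) (φ : P → ℝ) (x : P) : LL (bb η) (fun y => φ (-y)) x = LL (bb η) φ (-x) := by
  unfold LL
  rw [lap_neg, dx_neg, dy_neg, bb_neg]
  show lap φ (-x) + (bb η x).1 * -dx φ (-x) + (bb η x).2 * -dy φ (-x) =
    lap φ (-x) + -(bb η x).1 * dx φ (-x) + -(bb η x).2 * dy φ (-x)
  ring

lemma U0c_neg (x : P) : U0c (-x) = -U0c x := by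
  unfold U0c
  rw [ls_neg, rs_neg]
  show 1 / √(rs x) * (ls x ^ (-(3 / 4) : ℝ) * (-x.1 / √(rs x)) +
    3 / 16 * ls x ^ (-(7 / 4) : ℝ) * (4 * (-x.1 / √(rs x)) ^ 3 - 3 * (-x.1 / √(rs x)))) = _
  ring

lemma Sup_neg {φ : P → ℝ} (h : Sup φ) : Sup (fun x => φ (-x)) := by
  obtain ⟨a, b, ha, hb, hab⟩ := h
  refine ⟨a, b, ha, hb, fun x hx => ?_⟩
  rw [← rs_neg]
  exact hab (-x) hx

lemma EE_anti (s θ : ℝ) : EE (s, θ + π) = -EE (s, θ) := by
  unfold EE
  apply Prod.ext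
  · show exp (-s) * cos (θ + π) = -(exp (-s) * cos θ)
    rw [Real.cos_add_pi]
    ring
  · show exp (-s) * sin (θ + π) = -(exp (-s) * sin θ)
    rw [Real.sin_add_pi]
    ring

lemma meas_rs : Measurable rs := ((measurable_fst.pow_const 2).add (measurable_snd.pow_const 2))

lemma meas_ls : Measurable ls := (Real.measurable_log.comp meas_rs).const_mul _

lemma meas_ar : Measurable ar := by
  unfold ar
  have h1 : Measurable fun x : P => (⟨x.1, x.2⟩ : ℂ) := by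
    have h2 : (fun x : P => (⟨x.1, x.2⟩ : ℂ)) = fun x : P => (x.1 : ℂ) + (x.2 : ℂ) * Complex.I := by
      funext x
      apply Complex.ext <;> simp
    rw [h2]
    exact (Complex.measurable_ofReal.comp measurable_fst).add
      ((Complex.measurable_ofReal.comp measurable_snd).mul_const _)
  exact Complex.measurable_arg.comp h1

lemma meas_Dc (S : ℝ) : MeasurableSet (Dc S) := by
  unfold Dc
  exact (measurableSet_lt measurable_const meas_rs).inter (measurableSet_lt meas_rs measurable_const)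

lemma ls_pos {x : P} (hx : x ∈ Dc 21) : 21 < ls x := by
  unfold ls
  have h1 : log (rs x) < -2 * 21 := by
    rw [Real.log_lt_iff_lt_exp hx.1]
    exact hx.2
  linarith

/-- JOB LOC -/
theorem loc (h : S_dua) (h1 : S_chn) (h2 : S_pol) : S_loc := by
  obtain ⟨Z, hZm, hZi, hZ⟩ := h
  let z : P → ℝ := fun x => Z (ls x, ar x)
  have hzm : Measurable z := hZm.comp (meas_ls.prodMk meas_ar)
  have hzE : ∀ p ∈ Sp 21, z (EE p) = Z p := by
    intro p hp
    show Z (ls (EE p), ar (EE p)) = Z p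
    rw [ls_EE, ar_EE hp.2]
  have hzi : IntegrableOn (fun x => ls x * z x ^ 2) (Dc 21) := by
    rw [(h2 21 (fun x => ls x * z x ^ 2)).2]
    refine (integrableOn_congr_fun (fun p hp => ?_) (meas_Sp 21)).1 hZi
    show exp (-2 * p.1) * p.1 * Z p ^ 2 = exp (-2 * p.1) * (ls (EE p) * z (EE p) ^ 2)
    rw [hzE p hp, ls_EE]
    ring
  have hzi' : IntegrableOn (fun x => ls x * z (-x) ^ 2) (Dc 21) := by
    have h3 := intOn_neg hzi
    simp only [ls_neg] at h3
    exact h3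
  -- transfer of the two integrals
  have iU : ∀ φ : P → ℝ, ContDiff ℝ (⊤ : ℕ∞) φ → ∫ x in Dc 21, U0c x * LL (bb eta0) φ x =
      ∫ p in Sp 21, U0 p * G0 (φ ∘ EE) p := by
    intro φ hφ
    rw [(tr_int h1 h2 U0c hφ).1]
    simp only [U0c_EE]
  have iZ : ∀ φ : P → ℝ, ContDiff ℝ (⊤ : ℕ∞) φ → ∫ x in Dc 21, z x * LL (bb eta0) φ x =
      ∫ p in Sp 21, Z p * G0 (φ ∘ EE) p := by
    intro φ hφ
    rw [(tr_int h1 h2 z hφ).1]
    exact setIntegral_congr_fun (meas_Sp 21) fun p hp => by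
      show z (EE p) * G0 (φ ∘ EE) p = Z p * G0 (φ ∘ EE) p
      rw [hzE p hp]
  have gU : ∀ φ : P → ℝ, ContDiff ℝ (⊤ : ℕ∞) φ → Sup φ → IntegrableOn (fun p => U0 p * G0 (φ ∘ EE) p) (Sp 21) := by
    intro φ hφ hs
    obtain ⟨a, b, ha, hab⟩ := sup_EE hs
    exact int_strip_U0 (hφ.comp EE_smooth) ha hab
  have gZ : ∀ φ : P → ℝ, ContDiff ℝ (⊤ : ℕ∞) φ → Sup φ → IntegrableOn (fun p => Z p * G0 (φ ∘ EE) p) (Sp 21) := by
    intro φ hφ hs
    obtain ⟨a, b, ha, hab⟩ := sup_EE hs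
    exact int_strip_Z hZm hZi (hφ.comp EE_smooth) ha hab
  have jU : ∀ φ : P → ℝ, ContDiff ℝ (⊤ : ℕ∞) φ → Sup φ →
      IntegrableOn (fun x => U0c x * LL (bb eta0) φ x) (Dc 21) := by
    intro φ hφ hs
    rw [(tr_int h1 h2 U0c hφ).2]
    simp only [U0c_EE]
    exact gU φ hφ hs
  have jZ : ∀ φ : P → ℝ, ContDiff ℝ (⊤ : ℕ∞) φ → Sup φ →
      IntegrableOn (fun x => z x * LL (bb eta0) φ x) (Dc 21) := by
    intro φ hφ hs
    rw [(tr_int h1 h2 z hφ).2]
    refine (integrableOn_congr_fun (fun p hp => ?_) (meas_Sp 21)).1 (gZ φ hφ hs)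
    show Z p * G0 (φ ∘ EE) p = z (EE p) * G0 (φ ∘ EE) p
    rw [hzE p hp]
  refine ⟨fun x => (z x - z (-x)) / 2, ?_, ?_, ?_, ?_⟩
  · exact (hzm.sub (hzm.comp measurable_neg)).div_const 2
  · intro x
    show (z (-x) - z (- -x)) / 2 = -((z x - z (-x)) / 2)
    rw [neg_neg]
    ring
  · have h3 : Integrable (fun x => ls x * z x ^ 2 + ls x * z (-x) ^ 2) (volume.restrict (Dc 21)) := hzi.add hzi'
    refine h3.mono' ?_ ?_
    · exact (meas_ls.mul (((hzm.sub (hzm.comp measurable_neg)).div_const 2).pow_const 2)).aestronglyMeasurable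
    · filter_upwards [ae_restrict_mem (meas_Dc 21)] with x hx
      have h4 : 0 < ls x := lt_trans (by norm_num) (ls_pos hx)
      rw [Real.norm_eq_abs, abs_of_nonneg (by positivity), ← mul_add]
      apply mul_le_mul_of_nonneg_left _ h4.le
      nlinarith [sq_nonneg (z x + z (-x)), sq_nonneg (z x), sq_nonneg (z (-x))]
  · intro φ hφ hs0
    have hs : Sup φ := hs0
    let φn : P → ℝ := fun x => φ (-x)
    have hφn : ContDiff ℝ (⊤ : ℕ∞) φn := hφ.comp contDiff_neg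
    have hsn : Sup φn := Sup_neg hs
    -- the reflected integrals
    have r1 : ∫ x in Dc 21, U0c x * LL (bb eta0) φn x = -∫ x in Dc 21, U0c x * LL (bb eta0) φ x := by
      rw [← int_neg 21 (fun x => U0c x * LL (bb eta0) φ x), ← integral_neg]
      congr 1
      funext x
      rw [U0c_neg, ← LL_neg]
      show U0c x * LL (bb eta0) φn x = -(-U0c x * LL (bb eta0) φn x)
      ring
    have r2 : ∫ x in Dc 21, z (-x) * LL (bb eta0) φ x = ∫ x in Dc 21, z x * LL (bb eta0) φn x := by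
      rw [← int_neg 21 (fun x => z x * LL (bb eta0) φn x)]
      congr 1
      funext x
      have h5 := LL_neg eta0 φn x
      rw [← h5]
      show z (-x) * LL (bb eta0) φ x = z (-x) * LL (bb eta0) (fun y => φn (-y)) x
      congr 2
      funext y
      show φ y = φ (- -y)
      rw [neg_neg]
    have j2 : IntegrableOn (fun x => z (-x) * LL (bb eta0) φ x) (Dc 21) := by
      have h5 := intOn_neg (jZ φn hφn hsn)
      have h6 : (fun x : P => z (-x) * LL (bb eta0) φn (-x)) = fun x => z (-x) * LL (bb eta0) φ x := by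
        funext x
        rw [← LL_neg]
        congr 2
        funext y
        show φ (- -y) = φ y
        rw [neg_neg]
      rw [← h6]
      exact h5
    have e1 : ∫ x in Dc 21, (U0c x - (z x - z (-x)) / 2) * LL (bb eta0) φ x =
        (∫ x in Dc 21, U0c x * LL (bb eta0) φ x) - (1 / 2) * (∫ x in Dc 21, z x * LL (bb eta0) φ x) +
          (1 / 2) * ∫ x in Dc 21, z (-x) * LL (bb eta0) φ x := by
      have i1 : Integrable (fun x => U0c x * LL (bb eta0) φ x - 1 / 2 * (z x * LL (bb eta0) φ x))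
          (volume.restrict (Dc 21)) := (jU φ hφ hs).sub ((jZ φ hφ hs).const_mul _)
      have i2 : Integrable (fun x => 1 / 2 * (z (-x) * LL (bb eta0) φ x)) (volume.restrict (Dc 21)) :=
        j2.const_mul _
      rw [← integral_const_mul, ← integral_const_mul, ← integral_sub (jU φ hφ hs) ((jZ φ hφ hs).const_mul _),
        ← integral_add i1 i2]
      congr 1
      funext x
      ring
    show ∫ x in Dc 21, (U0c x - (z x - z (-x)) / 2) * LL (bb eta0) φ x = 0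
    rw [e1, r2]
    -- the odd part
    let ψ : P → ℝ := (φ ∘ EE) + (-1 : ℝ) • (φn ∘ EE)
    have hφE : ContDiff ℝ (⊤ : ℕ∞) (φ ∘ EE) := hφ.comp EE_smooth
    have hφnE : ContDiff ℝ (⊤ : ℕ∞) (φn ∘ EE) := hφn.comp EE_smooth
    have hGψ : ∀ p, G0 ψ p = G0 (φ ∘ EE) p - G0 (φn ∘ EE) p := by
      intro p
      show G0 ((φ ∘ EE) + (-1 : ℝ) • (φn ∘ EE)) p = _
      rw [G0_add (ψ := (-1 : ℝ) • (φn ∘ EE)) hφE (hφnE.const_smul (-1 : ℝ)), G0_smul _ hφnE]
      ring
    have hTC : TC ψ := by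
      obtain ⟨a, b, ha, hab⟩ := sup_EE hs
      obtain ⟨a', b', ha', hab'⟩ := sup_EE hsn
      refine ⟨hφE.add (hφnE.const_smul (-1 : ℝ)), fun s θ => ?_, min a a', max b b', lt_min ha ha', fun s θ hne => ?_⟩
      · show φ (EE (s, θ + π)) + (-1 : ℝ) * φ (-EE (s, θ + π)) = -(φ (EE (s, θ)) + (-1 : ℝ) * φ (-EE (s, θ)))
        rw [EE_anti, neg_neg]
        ring
      · by_cases h0 : (φ ∘ EE) (s, θ) = 0
        · have h1 : (φn ∘ EE) (s, θ) ≠ 0 := by
            intro h1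
            apply hne
            show (φ ∘ EE) (s, θ) + (-1 : ℝ) * (φn ∘ EE) (s, θ) = 0
            rw [h0, h1]
            ring
          have := hab' (s, θ) h1
          exact ⟨(min_le_right _ _).trans this.1, this.2.trans (le_max_right _ _)⟩
        · have := hab (s, θ) h0
          exact ⟨(min_le_left _ _).trans this.1, this.2.trans (le_max_left _ _)⟩
    have k1 := hZ ψ hTC
    simp only [hGψ, mul_sub] at k1
    rw [integral_sub (gZ φ hφ hs) (gZ φn hφn hsn), integral_sub (gU φ hφ hs) (gU φn hφn hsn),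
      ← iU φ hφ, ← iU φn hφn, ← iZ φ hφ, ← iZ φn hφn, r1] at k1
    linarith

end Pool.Agent.Q214.ND
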